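import Pool.Agent.W290.BM.Det1b

set_option autoImplicit false

/-!
# DET1: upper walls are matched, short and have equal colours on both sides
-/

namespace Pool.Agent.W290.BM

open Pool.Agent.W927.BM

variable {A : Lay} {K : ℕ} {dl : ℤ → ℤ → ℤ} {c : ℤ → ℤ → Bool}

/-- consecutive vertices of a lower wall -/
structure DD (A : Lay) (t a a' : ℤ) : Prop where
  d : A.D t a
  d' : A.D (t + 1) a'
  s : (a' = a ∧ A.e0 t a = .d ∧ A.e1 t (a - 1) = .n) ∨
    (a' = a + 1 ∧ A.e1 t a = .d ∧ A.e0 t a = .n ∧ A.e0 t (a + 1) = .n)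

lemma DD.depth (hd : Depth A dl) {t a a' : ℤ} (h : DD A t a a') : dl (t + 1) a' = dl t a := by
  have hv := hd.v t a
  rw [sy_D h.d] at hv
  rcases h.s with ⟨h1, h2, -⟩ | ⟨h1, -, -, h2⟩
  · have := hd.e0 t a
    rw [h2] at this
    simp only [cr] at this
    rw [h1]; omega
  · have := hd.e0 t (a + 1)
    rw [h2, add_sub_cancel_right] at this
    simp only [cr] at this
    rw [h1]; omega

lemma DD.col (hc : ∀ t x, A.ColAt c t x) {t a a' : ℤ} (h : DD A t a a') :
    c (t + 1) (a' - 1) ≠ c t (a - 1) := by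
  rcases h.s with ⟨h1, -, h2⟩ | ⟨h1, -, h2, -⟩
  · rw [h1]
    exact (hc t (a - 1)).2 h2
  · rw [h1, add_sub_cancel_right]
    exact (hc t a).1 h2

lemma UU.col (hT : Typ A) (hc : ∀ t x, A.ColAt c t x) {t b b' : ℤ} (h : UU A t b b') :
    c (t + 1) b' ≠ c t b := by
  rcases h.cases hT with ⟨h1, -, h2, -⟩ | ⟨h1, -, -, h2⟩
  · rw [h1]
    exact (hc t b).2 h2
  · have := (hc t (b + 1)).1 h2
    rw [add_sub_cancel_right] at this
    rw [h1]
    exact this

/-- matched pair with equal outer colours -/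
structure Rel (A : Lay) (dl : ℤ → ℤ → ℤ) (c : ℤ → ℤ → Bool) (t a b : ℤ) : Prop where
  D : A.D t a
  U : A.U t b
  lt : a < b
  eq : dl t a = dl t (b - 1)
  ge : ∀ z, a ≤ z → z < b → dl t (b - 1) ≤ dl t z
  col : c t (a - 1) = c t b

lemma bool_ne {x y x' y' : Bool} (h1 : x' ≠ x) (h2 : y' ≠ y) (h : x = y) : x' = y' := by
  revert x y x' y'
  decide

lemma bool_ne' {x y x' y' : Bool} (h1 : x' ≠ x) (h2 : y' ≠ y) (h : x' = y') : x = y := by
  revert x y x' y'
  decide

lemma bool_ne3 {w x y : Bool} (h1 : x ≠ w) (h2 : y ≠ w) : x = y := by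
  revert w x y
  decide

lemma step_fwd (hT : Typ A) (hc : ∀ t x, A.ColAt c t x) (hd : Depth A dl) {t a b b' : ℤ}
    (hu : UU A t b b') (hr : Rel A dl c t a b) :
    ∃ a', Rel A dl c (t + 1) a' b' ∧ b' - a' ≤ b - a + 1 := by
  have hle := hu.le hT
  have hlt := hr.lt
  have hdep := hu.depth hd hT
  obtain ⟨a', ha⟩ : ∃ a', DD A t a a' := by
    rcases hr.D.2 with ⟨h1, h2⟩ | ⟨h1, h2⟩
    · have h3 := F7 hT h1
      exact ⟨a, hr.D, h3.1, Or.inl ⟨rfl, h1, h3.2⟩⟩
    · rcases F8 hT h2 with h3 | h3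
      · exact ⟨a + 1, hr.D, h3.1, Or.inr ⟨rfl, h2, h1, h3.2⟩⟩
      · exfalso
        have h4 : A.e0 t (a + 1) = .u := by
          have := h3.1
          rwa [add_sub_cancel_right] at this
        rcases eq_or_ne (a + 1) b with h5 | h5
        · rw [h5] at h4
          have h6 : b' = b := by
            rcases hu.cases hT with ⟨h6, -⟩ | ⟨-, -, h6, -⟩
            · exact h6
            · rw [h4] at h6
              exact absurd h6 (by decide)
          rw [h5, ← h6] at h3
          exact not_U_M hu.u' h3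
        · have h6 := hr.ge (a + 1) (by omega) (by omega)
          have h7 := hd.v t (a + 1)
          rw [sy_U (F1 hT h4).1, add_sub_cancel_right] at h7
          have := hr.eq
          omega
  have ha1 : a ≤ a' ∧ a' ≤ a + 1 := by
    rcases ha.s with ⟨h1, -⟩ | ⟨h1, -⟩ <;> omega
  have hda := ha.depth hd
  have hlt' : a' < b' := by
    rcases lt_or_eq_of_le (show a' ≤ b' by omega) with h1 | h1
    · exact h1
    · exfalso
      have := ha.d'
      rw [h1] at this
      exact not_U_D hu.u' this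
  refine ⟨a', ⟨ha.d', hu.u', hlt', ?_, ?_, ?_⟩, by omega⟩
  · have := hr.eq
    omega
  · intro z hz hzb
    have heq := hr.eq
    rcases eq_or_lt_of_le hz with h4 | h4
    · subst h4; omega
    · rcases eq_or_ne z (b' - 1) with h5 | h5
      · subst h5; omega
      · rw [hdep]
        apply hd.min1 hT
        · exact hr.ge (z - 1) (by omega) (by omega)
        · exact hr.ge z (by omega) (by omega)
  · exact bool_ne (ha.col hc) (hu.col hT hc) hr.col

lemma step_bwd (hT : Typ A) (hc : ∀ t x, A.ColAt c t x) (hd : Depth A dl) {t a' b b' : ℤ}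
    (hu : UU A t b b') (hr : Rel A dl c (t + 1) a' b') :
    ∃ a, Rel A dl c t a b ∧ b - a ≤ b' - a' + 1 := by
  have hle := hu.le hT
  have hlt := hr.lt
  have hdep := hu.depth hd hT
  obtain ⟨a, ha⟩ : ∃ a, DD A t a a' := by
    have hin := hr.D.1
    rw [add_sub_cancel_right] at hin
    rcases hin with ⟨h1, h2⟩ | ⟨h1, h2⟩
    · rcases F3 hT h1 with h3 | h3
      · exact ⟨a', h3.1, hr.D, Or.inl ⟨rfl, h1, h2⟩⟩
      · exfalso
        have h4 : A.e1 t a' = .u := h3.2.2.2
        obtain ⟨h5, h6⟩ := F5 hT h4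
        rcases eq_or_ne (a' + 1) b' with h7 | h7
        · rcases hu.cases hT with ⟨h8, h9, -, -⟩ | ⟨h8, -, -, -⟩
          · rw [← h8, ← h7, h6] at h9
            exact absurd h9 (by decide)
          · have h10 : b = a' := by omega
            have h11 := hu.u
            rw [h10] at h11
            exact not_U_S h11 h3
        · have h8 := hr.ge (a' + 1) (by omega) (by omega)
          have h9 := hd.v (t + 1) (a' + 1)
          rw [sy_U h5, add_sub_cancel_right] at h9
          have := hr.eq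
          omega
    · have h3 := F4 hT h2
      refine ⟨a' - 1, h3.1, hr.D, Or.inr ⟨by ring, h2, h3.2, ?_⟩⟩
      rw [sub_add_cancel]
      exact h1
  have ha1 : a ≤ a' ∧ a' ≤ a + 1 := by
    rcases ha.s with ⟨h1, -⟩ | ⟨h1, -⟩ <;> omega
  have hda := ha.depth hd
  have hlt' : a < b := by
    rcases lt_or_eq_of_le (show a ≤ b by omega) with h1 | h1
    · exact h1
    · exfalso
      have := ha.d
      rw [h1] at this
      exact not_U_D hu.u this
  refine ⟨a, ⟨ha.d, hu.u, hlt', ?_, ?_, ?_⟩, by omega⟩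
  · have := hr.eq
    omega
  · intro z hz hzb
    have heq := hr.eq
    rcases eq_or_lt_of_le hz with h4 | h4
    · subst h4; omega
    · rcases eq_or_ne z (b - 1) with h5 | h5
      · subst h5; omega
      · apply hd.min2 hT
        · have := hr.ge z (by omega) (by omega)
          omega
        · have := hr.ge (z + 1) (by omega) (by omega)
          omega
  · exact bool_ne' (ha.col hc) (hu.col hT hc) hr.col

lemma base_S (hT : Typ A) (hc : ∀ t x, A.ColAt c t x) {t s : ℤ} (hS : A.S t s) :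
    Rel A dl c (t + 1) s (s + 1) := by
  have h1 := F7 hT hS.2.2.1
  have h2 := F5 hT hS.2.2.2
  refine ⟨h1.1, h2.1, by omega, by rw [add_sub_cancel_right], fun z hz hzb => ?_, ?_⟩
  · have : z = s := by omega
    rw [this, add_sub_cancel_right]
  · have c1 := (hc (t - 1) s).1 hS.1
    have c2 := (hc (t - 1) (s - 1)).2 hS.2.1
    rw [sub_add_cancel] at c1 c2
    have c3 := (hc t (s - 1)).2 h1.2
    have c4 := (hc t (s + 1)).1 h2.2
    rw [add_sub_cancel_right] at c4
    exact bool_ne c3 c4 (bool_ne3 c2 c1)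

lemma base_M (hT : Typ A) (hc : ∀ t x, A.ColAt c t x) {t b : ℤ} (hu : A.U t b)
    (hM : A.M (t + 1) b) : Rel A dl c t (b - 1) b := by
  have h1 := hM.1
  have h2 := hM.2.1
  rw [add_sub_cancel_right] at h1 h2
  have h3 := F4 hT h2
  refine ⟨h3.1, hu, by omega, rfl, fun z hz hzb => ?_, ?_⟩
  · have : z = b - 1 := by omega
    rw [this]
  · have c1 := (hc (t + 1) b).1 hM.2.2.1
    have c2 := (hc (t + 1) b).2 hM.2.2.2
    have c3 := (hc t (b - 1)).1 h3.2
    have c4 := (hc t b).2 (F1 hT h1).2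
    exact bool_ne' c3 c4 (bool_ne3 c1.symm c2.symm)

lemma UU.nx (h : ∀ t x, A.Loc K t x) {t b b' : ℤ} (hu : UU A t b b') : A.Nx t b b' := by
  have hT := Loc.toTyp h
  rcases hu.s with ⟨h1, h2⟩ | ⟨h1, h2⟩
  · subst h2
    exact (h t b').nx0 hu.u h1 hu.u'
  · subst h2
    exact (h t b).nx1 hu.u h1 hu.u'

section chains

variable (h : ∀ t x, A.Loc K t x) (hc : ∀ t x, A.ColAt c t x) (hd : Depth A dl)
  (hfin : ∀ t b, A.U t b → {x | Fl (A.sy t) b x}.Finite)
include h hc hd hfin

omit hc in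
lemma stepL {t b b' : ℤ} (hu : UU A t b b') (hp : A.p (t + 1) b' = false) :
    A.p t b = false ∧ K * (LL A t b).ncard + A.q t b + 1 ≤
      K * (LL A (t + 1) b').ncard + A.q (t + 1) b' := by
  have hnx := hu.nx h
  have hp0 : A.p t b = false := by
    rcases hpb : A.p t b with _ | _
    · rfl
    · exfalso
      have := hnx.1 hpb
      rw [hp] at this
      exact Bool.noConfusion this
  have he1 : ¬ A.l1 t (b' - 1) = true := by
    intro h1
    have := (end_event h hd hu h1).2.2.2
    rw [hp] at this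
    exact Bool.noConfusion this
  have he2 : ¬ A.l1 (t - 1) (b - 1) = true := by
    intro h1
    have := ((h t b).ulE hu.u h1).2
    rw [hp0] at this
    exact Bool.noConfusion this
  have hcons := conserve h hd hu (hfin _ _ hu.u) (hfin _ _ hu.u')
  rw [if_neg he1, add_zero] at hcons
  have hq := (h t b).qlt
  refine ⟨hp0, ?_⟩
  by_cases hl : A.l0 t b = true
  · have h1 := hnx.2.1 (Or.inr hl)
    rw [if_pos hl] at hcons
    rw [h1, hcons]
    have : K * ((LL A t b).ncard + 1) = K * (LL A t b).ncard + K := by ring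
    omega
  · have h1 := hnx.2.2 (by
      rintro (h2 | h2)
      · exact he2 h2
      · exact hl h2)
    rw [if_neg hl, add_zero] at hcons
    rw [h1, hcons]
    omega

omit hc in
lemma stepR {t b b' : ℤ} (hu : UU A t b b') (hp : A.p t b = true) :
    A.p (t + 1) b' = true ∧ K * (LL A (t + 1) b').ncard +
        K * (if A.l1 t (b' - 1) = true then 1 else 0) + (K - 1 - A.q (t + 1) b') + 1 ≤
      K * (LL A t b).ncard + K * (if A.l1 (t - 1) (b - 1) = true then 1 else 0) +
        (K - 1 - A.q t b) := by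
  have hnx := hu.nx h
  have he1 : ¬ A.l0 t b = true := by
    intro h1
    have := ((h t b).ulS hu.u h1).2
    rw [hp] at this
    exact Bool.noConfusion this
  have hcons := conserve h hd hu (hfin _ _ hu.u) (hfin _ _ hu.u')
  rw [if_neg he1, add_zero] at hcons
  have hq := (h t b).qlt
  have hq' := (h (t + 1) b').qlt
  refine ⟨hnx.1 hp, ?_⟩
  have e1 : K * (LL A (t + 1) b').ncard + K * (if A.l1 t (b' - 1) = true then 1 else 0) =
      K * (LL A t b).ncard := by
    rw [← hcons]; ring
  rw [e1]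
  by_cases hl : A.l1 (t - 1) (b - 1) = true
  · have h1 := hnx.2.1 (Or.inl hl)
    rw [if_pos hl, h1]
    omega
  · have h1 := hnx.2.2 (by
      rintro (h2 | h2)
      · exact hl h2
      · exact he1 h2)
    rw [if_neg hl, h1]
    omega

lemma chainL (f : ℕ) : ∀ t b, A.U t b → A.p t b = false →
    K * (LL A t b).ncard + A.q t b = f → ∃ a, Rel A dl c t a b ∧ b - a ≤ f + 1 := by
  have hT := Loc.toTyp h
  induction f using Nat.strong_induction_on with
  | _ f ih =>
    intro t b hU hp hf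
    have main : ∀ b0, UU A (t - 1) b0 b → ∃ a, Rel A dl c t a b ∧ b - a ≤ f + 1 := by
      intro b0 hu
      obtain ⟨hp0, hle⟩ := stepL h hd hfin hu (by rw [sub_add_cancel]; exact hp)
      rw [sub_add_cancel] at hle
      obtain ⟨a, ha, hab⟩ := ih _ (by omega) (t - 1) b0 hu.u hp0 rfl
      obtain ⟨a', ha', hab'⟩ := step_fwd hT hc hd hu ha
      rw [sub_add_cancel] at ha'
      refine ⟨a', ha', ?_⟩
      push_cast at hab
      have : ((K * (LL A (t - 1) b0).ncard + A.q (t - 1) b0 + 1 : ℕ) : ℤ) ≤ (f : ℤ) := by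
        exact_mod_cast (by omega : K * (LL A (t - 1) b0).ncard + A.q (t - 1) b0 + 1 ≤ f)
      push_cast at this
      omega
    rcases hU.1 with ⟨h1, -⟩ | ⟨-, h1⟩
    · apply main b
      refine ⟨(F1 hT h1).1, by rw [sub_add_cancel]; exact hU, Or.inl ⟨h1, rfl⟩⟩
    · rcases F2 hT h1 with ⟨h2, -⟩ | h2
      · apply main (b - 1)
        exact ⟨h2, by rw [sub_add_cancel]; exact hU, Or.inr ⟨h1, by ring⟩⟩
      · have := base_S (dl := dl) hT hc h2
        rw [sub_add_cancel, sub_add_cancel] at this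
        exact ⟨b - 1, this, by omega⟩

lemma chainR (f : ℕ) : ∀ t b, A.U t b → A.p t b = true →
    K * (LL A t b).ncard + K * (if A.l1 (t - 1) (b - 1) = true then 1 else 0) +
        (K - 1 - A.q t b) = f → ∃ a, Rel A dl c t a b ∧ b - a ≤ f + 1 := by
  have hT := Loc.toTyp h
  induction f using Nat.strong_induction_on with
  | _ f ih =>
    intro t b hU hp hf
    have main : ∀ b', UU A t b b' → ∃ a, Rel A dl c t a b ∧ b - a ≤ f + 1 := by
      intro b' hu
      obtain ⟨hp', hle⟩ := stepR h hd hfin hu hp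
      rw [hf] at hle
      obtain ⟨a', ha', hab'⟩ := ih _ (Nat.lt_of_succ_le hle) (t + 1) b' hu.u' hp'
        (by rw [add_sub_cancel_right])
      obtain ⟨a, ha, hab⟩ := step_bwd hT hc hd hu ha'
      refine ⟨a, ha, ?_⟩
      have : ((K * (LL A (t + 1) b').ncard + K * (if A.l1 t (b' - 1) = true then 1 else 0) +
          (K - 1 - A.q (t + 1) b') + 1 : ℕ) : ℤ) ≤ (f : ℤ) := by
        exact_mod_cast hle
      push_cast at this hab'
      omega
    rcases hU.2 with ⟨h1, -⟩ | ⟨-, h1⟩
    · rcases F6 hT h1 with ⟨h2, -⟩ | h2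
      · exact main b ⟨hU, h2, Or.inl ⟨h1, rfl⟩⟩
      · exact ⟨b - 1, base_M hT hc hU h2, by omega⟩
    · exact main (b + 1) ⟨hU, (F5 hT h1).1, Or.inr ⟨h1, rfl⟩⟩

end chains

theorem main : S_DET1 := by
  intro K A c h hc hfin t b hU
  have hT := Loc.toTyp h
  obtain ⟨dl, hd⟩ := exists_depth hT
  have hq := (h t b).qlt
  have hrel : ∃ a, Rel A dl c t a b ∧ b - a ≤ ((K * ((LL A t b).ncard + 2) : ℕ) : ℤ) := by
    rcases hp : A.p t b with _ | _
    · obtain ⟨a, ha, hab⟩ := chainL h hc hd hfin _ t b hU hp rfl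
      refine ⟨a, ha, hab.trans ?_⟩
      have : K * (LL A t b).ncard + A.q t b + 1 ≤ K * ((LL A t b).ncard + 2) := by
        have : K * ((LL A t b).ncard + 2) = K * (LL A t b).ncard + K + K := by ring
        omega
      exact_mod_cast this
    · obtain ⟨a, ha, hab⟩ := chainR h hc hd hfin _ t b hU hp rfl
      refine ⟨a, ha, hab.trans ?_⟩
      have : K * (LL A t b).ncard + K * (if A.l1 (t - 1) (b - 1) = true then 1 else 0) +
          (K - 1 - A.q t b) + 1 ≤ K * ((LL A t b).ncard + 2) := by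
        have e : K * ((LL A t b).ncard + 2) = K * (LL A t b).ncard + K + K := by ring
        split_ifs
        · omega
        · omega
      exact_mod_cast this
  obtain ⟨a, ha, hab⟩ := hrel
  have hFl : Fl (A.sy t) b a := by
    rw [hd.fl]
    exact ⟨ha.lt, ha.eq, ha.ge⟩
  refine ⟨a, ⟨sy_D ha.D, sy_U hU, hFl⟩, ?_, ha.col⟩
  have hcard : (LL A t b).ncard + 1 ≤ {x | Fl (A.sy t) b x}.ncard := by
    have hna : a ∉ LL A t b := fun h1 => not_D_N ha.D h1.1
    rw [← Set.ncard_insert_of_notMem hna ((hfin t b hU).subset (LL_sub t b))]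
    apply Set.ncard_le_ncard _ (hfin t b hU)
    intro x hx
    rcases hx with rfl | hx
    · exact hFl
    · exact hx.2.2
  generalize {x | Fl (A.sy t) b x}.ncard = F at *
  generalize (LL A t b).ncard = n at *
  have h1 : K * (n + 2) ≤ 4 * K * F := by nlinarith
  have h2 : ((K * (n + 2) : ℕ) : ℤ) ≤ ((4 * K * F : ℕ) : ℤ) := by exact_mod_cast h1
  push_cast at h2 hab ⊢
  linarith

end Pool.Agent.W290.BM
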