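import Pool.Agent.W927.BM.Stm

set_option autoImplicit false

/-!
# DET1, part a: local facts and the depth function
-/

namespace Pool.Agent.W290.BM

open Pool.Agent.W927.BM

/-- jump of the depth across an edge -/
def cr : W3 → ℤ
  | .n => 0
  | .u => -1
  | .d => 1

/-- all vertices have one of the five types -/
def Typ (A : Lay) : Prop := ∀ t x, A.N t x ∨ A.S t x ∨ A.M t x ∨ A.U t x ∨ A.D t x

variable {A : Lay}

lemma F1 (h : Typ A) {t x : ℤ} (h0 : A.e0 t x = .u) : A.U t x ∧ A.e1 t x = .n := by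
  have := h t x
  simp only [Lay.N, Lay.S, Lay.M, Lay.U, Lay.D] at this ⊢
  rcases this with h1 | h1 | h1 | ⟨h1 | h1, h2 | h2⟩ | ⟨h1 | h1, h2 | h2⟩ <;> simp_all

lemma F2 (h : Typ A) {t x : ℤ} (h0 : A.e1 t x = .u) : (A.U t x ∧ A.e0 t x = .n) ∨ A.S t x := by
  have := h t x
  simp only [Lay.N, Lay.S, Lay.M, Lay.U, Lay.D] at this ⊢
  rcases this with h1 | h1 | h1 | ⟨h1 | h1, h2 | h2⟩ | ⟨h1 | h1, h2 | h2⟩ <;> simp_all

lemma F3 (h : Typ A) {t x : ℤ} (h0 : A.e0 t x = .d) : (A.D t x ∧ A.e1 t x = .n) ∨ A.S t x := by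
  have := h t x
  simp only [Lay.N, Lay.S, Lay.M, Lay.U, Lay.D] at this ⊢
  rcases this with h1 | h1 | h1 | ⟨h1 | h1, h2 | h2⟩ | ⟨h1 | h1, h2 | h2⟩ <;> simp_all

lemma F4 (h : Typ A) {t x : ℤ} (h0 : A.e1 t x = .d) : A.D t x ∧ A.e0 t x = .n := by
  have := h t x
  simp only [Lay.N, Lay.S, Lay.M, Lay.U, Lay.D] at this ⊢
  rcases this with h1 | h1 | h1 | ⟨h1 | h1, h2 | h2⟩ | ⟨h1 | h1, h2 | h2⟩ <;> simp_all

lemma F5 (h : Typ A) {t x : ℤ} (h0 : A.e1 t x = .u) : A.U (t + 1) (x + 1) ∧ A.e0 t (x + 1) = .n := by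
  have := h (t + 1) (x + 1)
  simp only [Lay.N, Lay.S, Lay.M, Lay.U, Lay.D, add_sub_cancel_right] at this ⊢
  rcases this with h1 | h1 | h1 | ⟨h1 | h1, h2 | h2⟩ | ⟨h1 | h1, h2 | h2⟩ <;> simp_all

lemma F6 (h : Typ A) {t x : ℤ} (h0 : A.e0 t x = .u) :
    (A.U (t + 1) x ∧ A.e1 t (x - 1) = .n) ∨ A.M (t + 1) x := by
  have := h (t + 1) x
  simp only [Lay.N, Lay.S, Lay.M, Lay.U, Lay.D, add_sub_cancel_right] at this ⊢
  rcases this with h1 | h1 | h1 | ⟨h1 | h1, h2 | h2⟩ | ⟨h1 | h1, h2 | h2⟩ <;> simp_all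

lemma F7 (h : Typ A) {t x : ℤ} (h0 : A.e0 t x = .d) : A.D (t + 1) x ∧ A.e1 t (x - 1) = .n := by
  have := h (t + 1) x
  simp only [Lay.N, Lay.S, Lay.M, Lay.U, Lay.D, add_sub_cancel_right] at this ⊢
  rcases this with h1 | h1 | h1 | ⟨h1 | h1, h2 | h2⟩ | ⟨h1 | h1, h2 | h2⟩ <;> simp_all

lemma F8 (h : Typ A) {t x : ℤ} (h0 : A.e1 t x = .d) :
    (A.D (t + 1) (x + 1) ∧ A.e0 t (x + 1) = .n) ∨ A.M (t + 1) (x + 1) := by
  have := h (t + 1) (x + 1)
  simp only [Lay.N, Lay.S, Lay.M, Lay.U, Lay.D, add_sub_cancel_right] at this ⊢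
  rcases this with h1 | h1 | h1 | ⟨h1 | h1, h2 | h2⟩ | ⟨h1 | h1, h2 | h2⟩ <;> simp_all

lemma not_U_D {t x : ℤ} (h1 : A.U t x) (h2 : A.D t x) : False := by
  simp only [Lay.U, Lay.D] at h1 h2
  generalize A.e0 (t - 1) x = p at *
  generalize A.e1 (t - 1) (x - 1) = q at *
  generalize A.e0 t x = r at *
  generalize A.e1 t x = s at *
  revert p q r s
  decide

lemma not_U_S {t x : ℤ} (h1 : A.U t x) (h2 : A.S t x) : False := by
  simp only [Lay.U, Lay.S] at h1 h2
  generalize A.e0 (t - 1) x = p at *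
  generalize A.e1 (t - 1) (x - 1) = q at *
  generalize A.e0 t x = r at *
  generalize A.e1 t x = s at *
  revert p q r s
  decide

lemma not_U_M {t x : ℤ} (h1 : A.U t x) (h2 : A.M t x) : False := by
  simp only [Lay.U, Lay.M] at h1 h2
  generalize A.e0 (t - 1) x = p at *
  generalize A.e1 (t - 1) (x - 1) = q at *
  generalize A.e0 t x = r at *
  generalize A.e1 t x = s at *
  revert p q r s
  decide

lemma not_U_N {t x : ℤ} (h1 : A.U t x) (h2 : A.N t x) : False := by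
  simp only [Lay.U, Lay.N] at h1 h2
  generalize A.e0 (t - 1) x = p at *
  generalize A.e1 (t - 1) (x - 1) = q at *
  generalize A.e0 t x = r at *
  generalize A.e1 t x = s at *
  revert p q r s
  decide

lemma not_D_N {t x : ℤ} (h1 : A.D t x) (h2 : A.N t x) : False := by
  simp only [Lay.D, Lay.N] at h1 h2
  generalize A.e0 (t - 1) x = p at *
  generalize A.e1 (t - 1) (x - 1) = q at *
  generalize A.e0 t x = r at *
  generalize A.e1 t x = s at *
  revert p q r s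
  decide

lemma sy_U {t x : ℤ} (h : A.U t x) : A.sy t x = -1 := by
  unfold Lay.sy
  rw [if_pos h]

lemma sy_D {t x : ℤ} (h : A.D t x) : A.sy t x = 1 := by
  unfold Lay.sy
  rw [if_neg (fun h1 => not_U_D h1 h), if_pos h]

lemma sy_zero {t x : ℤ} (h1 : ¬ A.U t x) (h2 : ¬ A.D t x) : A.sy t x = 0 := by
  unfold Lay.sy
  rw [if_neg h1, if_neg h2]

lemma not_D_S {t x : ℤ} (h1 : A.D t x) (h2 : A.S t x) : False := by
  simp only [Lay.D, Lay.S] at h1 h2
  generalize A.e0 (t - 1) x = p at *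
  generalize A.e1 (t - 1) (x - 1) = q at *
  generalize A.e0 t x = r at *
  generalize A.e1 t x = s at *
  revert p q r s
  decide

lemma not_D_M {t x : ℤ} (h1 : A.D t x) (h2 : A.M t x) : False := by
  simp only [Lay.D, Lay.M] at h1 h2
  generalize A.e0 (t - 1) x = p at *
  generalize A.e1 (t - 1) (x - 1) = q at *
  generalize A.e0 t x = r at *
  generalize A.e1 t x = s at *
  revert p q r s
  decide

lemma sy_out (h : Typ A) (t x : ℤ) : A.sy t x = cr (A.e0 t x) + cr (A.e1 t x) := by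
  rcases h t x with h1 | h1 | h1 | h1 | h1
  · rw [sy_zero (fun h2 => not_U_N h2 h1) (fun h2 => not_D_N h2 h1), h1.2.2.1, h1.2.2.2]; rfl
  · rw [sy_zero (fun h2 => not_U_S h2 h1) (fun h2 => not_D_S h2 h1), h1.2.2.1, h1.2.2.2]; rfl
  · rw [sy_zero (fun h2 => not_U_M h2 h1) (fun h2 => not_D_M h2 h1), h1.2.2.1, h1.2.2.2]; rfl
  · rw [sy_U h1]
    rcases h1.2 with h2 | h2 <;> rw [h2.1, h2.2] <;> rfl
  · rw [sy_D h1]
    rcases h1.2 with h2 | h2 <;> rw [h2.1, h2.2] <;> rfl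

lemma sy_in (h : Typ A) (t x : ℤ) :
    A.sy t x = cr (A.e0 (t - 1) x) + cr (A.e1 (t - 1) (x - 1)) := by
  rcases h t x with h1 | h1 | h1 | h1 | h1
  · rw [sy_zero (fun h2 => not_U_N h2 h1) (fun h2 => not_D_N h2 h1), h1.1, h1.2.1]; rfl
  · rw [sy_zero (fun h2 => not_U_S h2 h1) (fun h2 => not_D_S h2 h1), h1.1, h1.2.1]; rfl
  · rw [sy_zero (fun h2 => not_U_M h2 h1) (fun h2 => not_D_M h2 h1), h1.1, h1.2.1]; rfl
  · rw [sy_U h1]
    rcases h1.1 with h2 | h2 <;> rw [h2.1, h2.2] <;> rfl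
  · rw [sy_D h1]
    rcases h1.1 with h2 | h2 <;> rw [h2.1, h2.2] <;> rfl

/-! ### the depth function -/

lemma integ (f : ℤ → ℤ) : ∃ g : ℤ → ℤ, g 0 = 0 ∧ ∀ x, g x - g (x - 1) = f x := by
  refine ⟨fun x => ∑ i ∈ Finset.Ioc 0 x, f i - ∑ i ∈ Finset.Ioc x 0, f i, by simp, fun x => ?_⟩
  rcases le_or_gt x 0 with hx | hx
  · have h1 : Finset.Ioc 0 x = ∅ := Finset.Ioc_eq_empty (by omega)
    have h2 : Finset.Ioc 0 (x - 1) = ∅ := Finset.Ioc_eq_empty (by omega)
    have h3 : Finset.Ioc (x - 1) 0 = insert x (Finset.Ioc x 0) := by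
      ext y
      simp only [Finset.mem_Ioc, Finset.mem_insert]
      omega
    simp only [h1, h2, h3]
    rw [Finset.sum_insert (by simp)]
    simp
  · have h1 : Finset.Ioc x 0 = ∅ := Finset.Ioc_eq_empty (by omega)
    have h2 : Finset.Ioc (x - 1) 0 = ∅ := Finset.Ioc_eq_empty (by omega)
    have h3 : Finset.Ioc 0 x = insert x (Finset.Ioc 0 (x - 1)) := by
      ext y
      simp only [Finset.mem_Ioc, Finset.mem_insert]
      omega
    simp only [h1, h2, h3]
    rw [Finset.sum_insert (by simp)]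
    simp

lemma int_ind {P : ℤ → Prop} (h0 : P 0) (h : ∀ t, P t ↔ P (t + 1)) (t : ℤ) : P t := by
  induction t using Int.induction_on with
  | zero => exact h0
  | succ i hi => exact (h i).mp hi
  | pred i hi =>
    apply (h _).mpr
    have : (-(i : ℤ) - 1 + 1) = -i := by ring
    rw [this]
    exact hi

lemma height (V H : ℤ → ℤ → ℤ) (hVH : ∀ t x, V (t + 1) x - V t x = H t x - H t (x - 1)) :
    ∃ dl : ℤ → ℤ → ℤ, (∀ t x, dl t x - dl t (x - 1) = V t x) ∧
      ∀ t x, dl (t + 1) x - dl t x = H t x := by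
  obtain ⟨g, -, hg⟩ := integ (V 0)
  choose h h0 hh using fun x => integ (fun t => H (t - 1) x)
  have hh' : ∀ t x, h x (t + 1) - h x t = H t x := by
    intro t x
    have := hh x (t + 1)
    simpa using this
  refine ⟨fun t x => g x + h x t, ?_, ?_⟩
  · intro t x
    revert t
    apply int_ind
    · have := hg x
      simp only [h0]
      linarith
    · intro t
      have h1 := hh' t x
      have h2 := hh' t (x - 1)
      have h3 := hVH t x
      constructor <;> intro h4 <;> linarith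
  · intro t x
    have h1 := hh' t x
    simp only
    linarith

/-- depth function of a layer -/
structure Depth (A : Lay) (dl : ℤ → ℤ → ℤ) : Prop where
  v : ∀ t x, dl t x = dl t (x - 1) + A.sy t x
  e0 : ∀ t x, dl (t + 1) x = dl t (x - 1) + cr (A.e0 t x)
  e1 : ∀ t x, dl t x = dl (t + 1) x + cr (A.e1 t x)

lemma exists_depth (h : Typ A) : ∃ dl, Depth A dl := by
  obtain ⟨dl, h1, h2⟩ := height A.sy (fun t x => -cr (A.e1 t x)) (by
    intro t x
    rw [sy_in h (t + 1) x, sy_out h t x]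
    simp only [add_sub_cancel_right]
    ring)
  refine ⟨dl, ⟨fun t x => by have := h1 t x; omega, fun t x => ?_, fun t x => ?_⟩⟩
  · have h3 := h1 t x
    have h4 := h2 t x
    have h5 := sy_out h t x
    omega
  · have h4 := h2 t x
    omega

variable {dl : ℤ → ℤ → ℤ}

lemma Depth.min1 (hd : Depth A dl) (h : Typ A) {t x k : ℤ} (h1 : k ≤ dl t (x - 1))
    (h2 : k ≤ dl t x) : k ≤ dl (t + 1) x := by
  have e0 := hd.e0 t x
  have e1 := hd.e1 t x
  rcases h3 : A.e0 t x with _ | _ | _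
  · rw [h3] at e0; simp only [cr] at e0; omega
  · rw [(F1 h h3).2] at e1; simp only [cr] at e1; omega
  · rw [h3] at e0; simp only [cr] at e0; omega

lemma Depth.min2 (hd : Depth A dl) (h : Typ A) {t x k : ℤ} (h1 : k ≤ dl (t + 1) x)
    (h2 : k ≤ dl (t + 1) (x + 1)) : k ≤ dl t x := by
  have e0 := hd.e0 t (x + 1)
  have e1 := hd.e1 t x
  rw [add_sub_cancel_right] at e0
  rcases h3 : A.e1 t x with _ | _ | _
  · rw [h3] at e1; simp only [cr] at e1; omega
  · rw [(F5 h h3).2] at e0; simp only [cr] at e0; omega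
  · rw [h3] at e1; simp only [cr] at e1; omega

lemma Depth.ds (hd : Depth A dl) (t : ℤ) {x b : ℤ} (hx : x < b) :
    ds (A.sy t) x b = dl t (b - 1) - dl t x := by
  obtain ⟨n, rfl⟩ : ∃ n : ℕ, b = x + 1 + n := ⟨(b - x - 1).toNat, by omega⟩
  clear hx
  unfold Pool.Agent.W927.BM.ds
  induction n with
  | zero =>
    have : Finset.Ioo x (x + 1 + ((0 : ℕ) : ℤ)) = ∅ := by
      ext y; simp only [Finset.mem_Ioo]; constructor
      · rintro ⟨h1, h2⟩; push_cast at h2; omega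
      · intro h; simp at h
    rw [this]
    simp
  | succ n ih =>
    have : Finset.Ioo x (x + 1 + ((n + 1 : ℕ) : ℤ)) =
        insert (x + 1 + (n : ℤ)) (Finset.Ioo x (x + 1 + (n : ℤ))) := by
      ext y; simp only [Finset.mem_Ioo, Finset.mem_insert]; push_cast; omega
    rw [this, Finset.sum_insert (by simp), ih]
    have h1 := hd.v t (x + 1 + n)
    have h2 : x + 1 + ((n + 1 : ℕ) : ℤ) - 1 = x + 1 + n := by push_cast; ring
    rw [h2]
    omega

lemma Depth.fl (hd : Depth A dl) (t b x : ℤ) : Fl (A.sy t) b x ↔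
    x < b ∧ dl t x = dl t (b - 1) ∧ ∀ z, x ≤ z → z < b → dl t (b - 1) ≤ dl t z := by
  unfold Fl
  constructor
  · rintro ⟨h1, h2, h3⟩
    refine ⟨h1, ?_, ?_⟩
    · rw [hd.ds t h1] at h2; omega
    · intro z hz hzb
      have := h3 z hz hzb
      rw [hd.ds t hzb] at this; omega
  · rintro ⟨h1, h2, h3⟩
    refine ⟨h1, ?_, ?_⟩
    · rw [hd.ds t h1]; omega
    · intro z hz hzb
      have := h3 z hz hzb
      rw [hd.ds t hzb]; omega

end Pool.Agent.W290.BM
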