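import Pool.Agent.W290.BM.Det1a

set_option autoImplicit false

/-!
# DET1, part b: conservation of lines
-/

namespace Pool.Agent.W290.BM

open Pool.Agent.W927.BM

variable {A : Lay} {K : ℕ} {dl : ℤ → ℤ → ℤ}

/-- successor of an upper wall vertex -/
def Su (A : Lay) (t b b' : ℤ) : Prop :=
  (A.e0 t b = .u ∧ b' = b) ∨ (A.e1 t b = .u ∧ b' = b + 1)

/-- consecutive vertices of an upper wall -/
structure UU (A : Lay) (t b b' : ℤ) : Prop where
  u : A.U t b
  u' : A.U (t + 1) b'
  s : Su A t b b'

lemma Loc.toTyp (h : ∀ t x, A.Loc K t x) : Typ A := fun t x => (h t x).typ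

/-- consequences of the type of both vertices -/
lemma UU.cases (h : Typ A) {t b b' : ℤ} (hu : UU A t b b') :
    (b' = b ∧ A.e0 t b = .u ∧ A.e1 t b = .n ∧ A.e1 t (b - 1) = .n) ∨
    (b' = b + 1 ∧ A.e1 t b = .u ∧ A.e0 t b = .n ∧ A.e0 t (b + 1) = .n) := by
  rcases hu.s with ⟨h1, h2⟩ | ⟨h1, h2⟩
  · left
    subst h2
    refine ⟨rfl, h1, (F1 h h1).2, ?_⟩
    rcases F6 h h1 with h3 | h3
    · exact h3.2
    · exact (not_U_M hu.u' h3).elim
  · right
    subst h2
    refine ⟨rfl, h1, ?_, (F5 h h1).2⟩
    rcases F2 h h1 with h3 | h3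
    · exact h3.2
    · exact (not_U_S hu.u h3).elim

lemma UU.depth (hd : Depth A dl) (h : Typ A) {t b b' : ℤ} (hu : UU A t b b') :
    dl (t + 1) (b' - 1) = dl t (b - 1) := by
  rcases hu.cases h with ⟨h1, -, -, h2⟩ | ⟨h1, -, h2, -⟩
  · have e1 := hd.e1 t (b - 1)
    rw [h2] at e1; simp only [cr] at e1
    rw [h1]; omega
  · have e0 := hd.e0 t b
    rw [h2] at e0; simp only [cr] at e0
    rw [h1, add_sub_cancel_right]; omega

lemma UU.le (h : Typ A) {t b b' : ℤ} (hu : UU A t b b') : b ≤ b' ∧ b' ≤ b + 1 := by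
  rcases hu.cases h with ⟨h1, -⟩ | ⟨h1, -⟩ <;> omega

lemma G1 (h : ∀ t x, A.Loc K t x) {t y : ℤ} (h0 : A.l0 t y = true) (h1 : A.l1 t (y - 1) = true) :
    False := by
  have hl := h (t + 1) y
  rcases hl.typ with h2 | h2 | h2 | h2 | h2
  · rcases hl.lin h2 with h3 | h3
    · have := h3.1
      rw [add_sub_cancel_right, h0] at this
      exact Bool.noConfusion this
    · rcases h3.1 with h4 | h4
      · have := h4.2
        rw [add_sub_cancel_right, h1] at this
        exact Bool.noConfusion this
      · have := h4.1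
        rw [add_sub_cancel_right, h0] at this
        exact Bool.noConfusion this
  · have := (hl.nol (Or.inl h2)).1
    rw [add_sub_cancel_right, h0] at this
    exact Bool.noConfusion this
  · have := (hl.nol (Or.inr (Or.inl h2))).1
    rw [add_sub_cancel_right, h0] at this
    exact Bool.noConfusion this
  · have := hl.ul0 h2
    rw [add_sub_cancel_right, h0] at this
    exact Bool.noConfusion this
  · have := (hl.nol (Or.inr (Or.inr h2))).1
    rw [add_sub_cancel_right, h0] at this
    exact Bool.noConfusion this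

lemma G2 (h : ∀ t x, A.Loc K t x) {t x : ℤ} (h0 : A.l0 t x = true) :
    (A.N t x ∧ A.Line t x) ∨ (A.U t x ∧ A.e1 t x = .u ∧ A.p t x = false) := by
  have hl := h t x
  rcases hl.typ with h2 | h2 | h2 | h2 | h2
  · left
    refine ⟨h2, ?_⟩
    rcases hl.lin h2 with h3 | h3
    · have := h3.2.2.1
      rw [h0] at this
      exact Bool.noConfusion this
    · exact h3
  · have := (hl.nol (Or.inl h2)).2.2.1
    rw [h0] at this
    exact Bool.noConfusion this
  · have := (hl.nol (Or.inr (Or.inl h2))).2.2.1
    rw [h0] at this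
    exact Bool.noConfusion this
  · right
    exact ⟨h2, hl.ulS h2 h0⟩
  · have := (hl.nol (Or.inr (Or.inr h2))).2.2.1
    rw [h0] at this
    exact Bool.noConfusion this

lemma G3 (h : ∀ t x, A.Loc K t x) {t x : ℤ} (h0 : A.l1 t x = true) :
    A.N t x ∧ A.Line t x := by
  have hl := h t x
  rcases hl.typ with h2 | h2 | h2 | h2 | h2
  · refine ⟨h2, ?_⟩
    rcases hl.lin h2 with h3 | h3
    · have := h3.2.2.2
      rw [h0] at this
      exact Bool.noConfusion this
    · exact h3
  · have := (hl.nol (Or.inl h2)).2.2.2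
    rw [h0] at this
    exact Bool.noConfusion this
  · have := (hl.nol (Or.inr (Or.inl h2))).2.2.2
    rw [h0] at this
    exact Bool.noConfusion this
  · have := hl.ul1 h2
    rw [h0] at this
    exact Bool.noConfusion this
  · have := (hl.nol (Or.inr (Or.inr h2))).2.2.2
    rw [h0] at this
    exact Bool.noConfusion this

lemma G4 (h : ∀ t x, A.Loc K t x) {t x : ℤ} (h0 : A.l0 t x = true) :
    A.N (t + 1) x ∧ A.Line (t + 1) x := by
  have hl := h (t + 1) x
  rcases hl.typ with h2 | h2 | h2 | h2 | h2
  · refine ⟨h2, ?_⟩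
    rcases hl.lin h2 with h3 | h3
    · have := h3.1
      rw [add_sub_cancel_right, h0] at this
      exact Bool.noConfusion this
    · exact h3
  · have := (hl.nol (Or.inl h2)).1
    rw [add_sub_cancel_right, h0] at this
    exact Bool.noConfusion this
  · have := (hl.nol (Or.inr (Or.inl h2))).1
    rw [add_sub_cancel_right, h0] at this
    exact Bool.noConfusion this
  · have := hl.ul0 h2
    rw [add_sub_cancel_right, h0] at this
    exact Bool.noConfusion this
  · have := (hl.nol (Or.inr (Or.inr h2))).1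
    rw [add_sub_cancel_right, h0] at this
    exact Bool.noConfusion this

lemma G5 (h : ∀ t x, A.Loc K t x) {t x : ℤ} (h0 : A.l1 t x = true) :
    (A.N (t + 1) (x + 1) ∧ A.Line (t + 1) (x + 1)) ∨
    (A.U (t + 1) (x + 1) ∧ A.e0 t (x + 1) = .u ∧ A.p (t + 1) (x + 1) = true) := by
  have hl := h (t + 1) (x + 1)
  rcases hl.typ with h2 | h2 | h2 | h2 | h2
  · left
    refine ⟨h2, ?_⟩
    rcases hl.lin h2 with h3 | h3
    · have := h3.2.1
      rw [add_sub_cancel_right, add_sub_cancel_right, h0] at this
      exact Bool.noConfusion this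
    · exact h3
  · have := (hl.nol (Or.inl h2)).2.1
    rw [add_sub_cancel_right, add_sub_cancel_right, h0] at this
    exact Bool.noConfusion this
  · have := (hl.nol (Or.inr (Or.inl h2))).2.1
    rw [add_sub_cancel_right, add_sub_cancel_right, h0] at this
    exact Bool.noConfusion this
  · right
    have := hl.ulE h2
    rw [add_sub_cancel_right, add_sub_cancel_right] at this
    exact ⟨h2, this h0⟩
  · have := (hl.nol (Or.inr (Or.inr h2))).2.1
    rw [add_sub_cancel_right, add_sub_cancel_right, h0] at this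
    exact Bool.noConfusion this

/-- the line vertices above the floor of the upper wall vertex `(t, b)` -/
def LL (A : Lay) (t b : ℤ) : Set ℤ := {x | A.N t x ∧ A.Line t x ∧ Fl (A.sy t) b x}

lemma LL_sub (t b : ℤ) : LL A t b ⊆ {x | Fl (A.sy t) b x} := fun _ hx => hx.2.2

/-- depth around a vertex without walls -/
lemma depth_N (hd : Depth A dl) {t x : ℤ} (hN : A.N t x) :
    dl t (x - 1) = dl t x ∧ dl (t + 1) x = dl t x := by
  have h1 := hd.v t x
  have h2 := hd.e1 t x
  rw [sy_zero (fun h2 => not_U_N h2 hN) (fun h2 => not_D_N h2 hN)] at h1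
  rw [hN.2.2.2] at h2
  simp only [cr] at h2
  omega

section cons

variable (h : ∀ t x, A.Loc K t x) (hd : Depth A dl) {t b b' : ℤ} (hu : UU A t b b')
include h hd hu

/-- the floor condition is transported forward -/
lemma floor_fwd {x y : ℤ} (hxy : x ≤ y) (hyx : y ≤ x + 1) (hyb : y < b')
    (hx : Fl (A.sy t) b x) (hy : dl (t + 1) y = dl t (b - 1)) : Fl (A.sy (t + 1)) b' y := by
  have hT := Loc.toTyp h
  rw [hd.fl] at hx ⊢
  obtain ⟨h1, h2, h3⟩ := hx
  have hdep := hu.depth hd hT
  have hle := hu.le hT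
  refine ⟨hyb, by omega, ?_⟩
  intro z hz hzb
  rcases eq_or_lt_of_le hz with h4 | h4
  · subst h4; omega
  · rcases eq_or_ne z (b' - 1) with h5 | h5
    · subst h5; omega
    · rw [hdep]
      apply hd.min1 hT
      · exact h3 (z - 1) (by omega) (by omega)
      · exact h3 z (by omega) (by omega)

/-- the floor condition is transported backward -/
lemma floor_bwd {x y : ℤ} (hxy : x ≤ y) (hyx : y ≤ x + 1) (hxb : x < b)
    (hy : Fl (A.sy (t + 1)) b' y) (hx : dl t x = dl t (b - 1)) : Fl (A.sy t) b x := by
  have hT := Loc.toTyp h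
  rw [hd.fl] at hy ⊢
  obtain ⟨h1, h2, h3⟩ := hy
  have hdep := hu.depth hd hT
  have hle := hu.le hT
  refine ⟨hxb, hx, ?_⟩
  intro z hz hzb
  rcases eq_or_lt_of_le hz with h4 | h4
  · subst h4; omega
  · rcases eq_or_ne z (b - 1) with h5 | h5
    · subst h5; omega
    · apply hd.min2 hT
      · have := h3 z (by omega) (by omega)
        omega
      · have := h3 (z + 1) (by omega) (by omega)
        omega

lemma fwd_map {x : ℤ} (hx : x ∈ LL A t b) :
    ((if A.l0 t x = true then x else x + 1) ∈ LL A (t + 1) b') ∨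
    ((if A.l0 t x = true then x else x + 1) = b' ∧ A.l1 t (b' - 1) = true) := by
  have hT := Loc.toTyp h
  obtain ⟨hN, hL, hF⟩ := hx
  have hF' := hF
  rw [hd.fl] at hF'
  obtain ⟨h1, h2, h3⟩ := hF'
  have hle := hu.le hT
  have hdep := hu.depth hd hT
  obtain ⟨hdN1, hdN2⟩ := depth_N hd hN
  by_cases hl0 : A.l0 t x = true
  · rw [if_pos hl0]
    left
    obtain ⟨hN', hL'⟩ := G4 h hl0
    refine ⟨hN', hL', ?_⟩
    apply floor_fwd h hd hu le_rfl (by omega) (by omega) hF
    omega
  · rw [if_neg hl0]
    have hl1 : A.l1 t x = true := by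
      rcases hL.2 with h4 | h4
      · exact absurd h4.1 hl0
      · exact h4.2
    rcases G5 h hl1 with ⟨hN', hL'⟩ | ⟨hU', he0, -⟩
    · -- `x + 1 < b'`
      have hlt : x + 1 < b' := by
        rcases lt_or_eq_of_le (show x + 1 ≤ b' by omega) with h4 | h4
        · exact h4
        · exfalso
          rw [h4] at hN'
          exact not_U_N hu.u' hN'
      left
      refine ⟨hN', hL', ?_⟩
      apply floor_fwd h hd hu (by omega) le_rfl hlt hF
      obtain ⟨hdM1, -⟩ := depth_N hd hN'
      rw [add_sub_cancel_right] at hdM1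
      omega
    · right
      have hU : A.U t (x + 1) := (F1 hT he0).1
      have hxb : x + 1 = b := by
        by_contra hne
        have h4 := h3 (x + 1) (by omega) (by omega)
        have h5 := hd.v t (x + 1)
        rw [sy_U hU, add_sub_cancel_right] at h5
        omega
      have hbb : b' = b := by
        rcases hu.cases hT with ⟨h4, -⟩ | ⟨-, -, h5, -⟩
        · exact h4
        · exfalso
          rw [hxb] at he0
          rw [he0] at h5
          exact absurd h5 (by decide)
      refine ⟨by omega, ?_⟩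
      have : b' - 1 = x := by omega
      rw [this]
      exact hl1

lemma bwd_map {y : ℤ} (hy : y ∈ LL A (t + 1) b') :
    (A.l0 t y = true ∧ (y ∈ LL A t b ∨ y = b)) ∨
    (A.l0 t (y - 1) = false ∧ A.l1 t (y - 1) = true ∧ y - 1 ∈ LL A t b) := by
  have hT := Loc.toTyp h
  obtain ⟨hN, hL, hF⟩ := hy
  have hF' := hF
  rw [hd.fl] at hF'
  obtain ⟨h1, h2, h3⟩ := hF'
  have hle := hu.le hT
  have hdep := hu.depth hd hT
  have hLin := hL.1
  rw [add_sub_cancel_right] at hLin
  rcases hLin with ⟨hl0, -⟩ | ⟨-, hl1⟩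
  · left
    refine ⟨hl0, ?_⟩
    rcases eq_or_ne y b with hyb | hyb
    · right; exact hyb
    · left
      have hylt : y < b := by omega
      rcases G2 h hl0 with ⟨hN', hL'⟩ | ⟨hU', he1, -⟩
      · obtain ⟨hdN1, hdN2⟩ := depth_N hd hN'
        exact ⟨hN', hL', floor_bwd h hd hu le_rfl (by omega) hylt hF (by omega)⟩
      · exfalso
        obtain ⟨hU2, he0⟩ := F5 hT he1
        rcases eq_or_ne (y + 1) b' with h4 | h4
        · rcases hu.cases hT with ⟨h5, h6, -, -⟩ | ⟨h5, -, -, -⟩
          · rw [← h5, ← h4] at h6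
            rw [he0] at h6
            exact absurd h6 (by decide)
          · omega
        · have h5 := h3 (y + 1) (by omega) (by omega)
          have h6 := hd.v (t + 1) (y + 1)
          rw [sy_U hU2, add_sub_cancel_right] at h6
          omega
  · right
    obtain ⟨hN', hL'⟩ := G3 h hl1
    have hl0 : A.l0 t (y - 1) = false := by
      rcases hL'.2 with h4 | h4
      · rw [h4.2] at hl1
        exact Bool.noConfusion hl1
      · exact h4.1
    refine ⟨hl0, hl1, hN', hL', ?_⟩
    obtain ⟨hdN1, hdN2⟩ := depth_N hd hN'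
    obtain ⟨hdM1, -⟩ := depth_N hd hN
    exact floor_bwd h hd hu (by omega) (by omega) (by omega) hF (by omega)

lemma end_event (hl1 : A.l1 t (b' - 1) = true) :
    b' = b ∧ A.l0 t (b - 1) = false ∧ b - 1 ∈ LL A t b ∧ A.p (t + 1) b' = true := by
  have hT := Loc.toTyp h
  have h5 := G5 h hl1
  rw [sub_add_cancel] at h5
  rcases h5 with ⟨h6, -⟩ | ⟨-, he0, hp⟩
  · exact (not_U_N hu.u' h6).elim
  · have hbb : b' = b := by
      rcases hu.cases hT with ⟨h4, -⟩ | ⟨h4, -, -, h7⟩
      · exact h4
      · exfalso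
        rw [h4, h7] at he0
        exact absurd he0 (by decide)
    rw [hbb] at hl1
    obtain ⟨hN', hL'⟩ := G3 h hl1
    have hl0 : A.l0 t (b - 1) = false := by
      rcases hL'.2 with h4 | h4
      · rw [h4.2] at hl1
        exact Bool.noConfusion hl1
      · exact h4.1
    refine ⟨hbb, hl0, ⟨hN', hL', ?_⟩, hp⟩
    rw [hd.fl]
    refine ⟨by omega, rfl, fun z hz hzb => ?_⟩
    have : z = b - 1 := by omega
    rw [this]

theorem conserve (hf : {x | Fl (A.sy t) b x}.Finite) (hf' : {x | Fl (A.sy (t + 1)) b' x}.Finite) :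
    (LL A (t + 1) b').ncard + (if A.l1 t (b' - 1) = true then 1 else 0) =
      (LL A t b).ncard + (if A.l0 t b = true then 1 else 0) := by
  classical
  have hT := Loc.toTyp h
  set S1 : Set ℤ := {x | x ∈ LL A t b ∨ (x = b ∧ A.l0 t b = true)} with hS1
  set S2 : Set ℤ := {y | y ∈ LL A (t + 1) b' ∨ (y = b' ∧ A.l1 t (b' - 1) = true)} with hS2
  have hbn : b ∉ LL A t b := fun hb => by
    have := hb.2.2.1
    omega
  have hbn' : b' ∉ LL A (t + 1) b' := fun hb => by
    have := hb.2.2.1
    omega
  have hLf : (LL A t b).Finite := hf.subset (LL_sub t b)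
  have hLf' : (LL A (t + 1) b').Finite := hf'.subset (LL_sub (t + 1) b')
  have c1 : S1.ncard = (LL A t b).ncard + (if A.l0 t b = true then 1 else 0) := by
    by_cases hl : A.l0 t b = true
    · have : S1 = insert b (LL A t b) := by
        ext x
        simp only [hS1, hl, and_true, Set.mem_ofPred_eq, Set.mem_insert_iff]
        tauto
      rw [this, Set.ncard_insert_of_notMem hbn hLf, if_pos hl]
    · have : S1 = LL A t b := by
        ext x
        simp [hS1, hl]
      rw [this, if_neg hl, add_zero]
  have c2 : S2.ncard = (LL A (t + 1) b').ncard + (if A.l1 t (b' - 1) = true then 1 else 0) := by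
    by_cases hl : A.l1 t (b' - 1) = true
    · have : S2 = insert b' (LL A (t + 1) b') := by
        ext x
        simp only [hS2, hl, and_true, Set.mem_ofPred_eq, Set.mem_insert_iff]
        tauto
      rw [this, Set.ncard_insert_of_notMem hbn' hLf', if_pos hl]
    · have : S2 = LL A (t + 1) b' := by
        ext x
        simp [hS2, hl]
      rw [this, if_neg hl, add_zero]
  rw [← c1, ← c2]
  symm
  apply Set.ncard_congr (fun x _ => if A.l0 t x = true then x else x + 1)
  · -- maps to
    intro x hx
    rcases hx with hx | ⟨hx, hl⟩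
    · exact fwd_map h hd hu hx
    · subst hx
      simp only [hl, if_true]
      left
      obtain ⟨hN', hL'⟩ := G4 h hl
      rcases G2 h hl with ⟨h4, -⟩ | ⟨-, he1, -⟩
      · exact (not_U_N hu.u h4).elim
      · have hbb : b' = x + 1 := by
          rcases hu.cases hT with ⟨-, h5, -, -⟩ | ⟨h5, -⟩
          · have := (F1 hT h5).2
            rw [this] at he1
            exact absurd he1 (by decide)
          · exact h5
        refine ⟨hN', hL', ?_⟩
        rw [hd.fl]
        subst hbb
        rw [add_sub_cancel_right]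
        refine ⟨by omega, rfl, fun z hz hzb => ?_⟩
        have : z = x := by omega
        rw [this]
  · -- injective
    intro x y hx hy hxy
    -- outgoing lines
    have key : ∀ z, z ∈ S1 → A.l0 t z = true ∨ A.l1 t z = true := by
      intro z hz
      rcases hz with ⟨-, hL, -⟩ | ⟨hz, hl⟩
      · rcases hL.2 with h4 | h4
        · left; exact h4.1
        · right; exact h4.2
      · left; rw [hz]; exact hl
    by_cases hx0 : A.l0 t x = true <;> by_cases hy0 : A.l0 t y = true
    · simpa [hx0, hy0] using hxy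
    · simp only [hx0, hy0, if_true] at hxy
      exfalso
      have hy1 := (key y hy).resolve_left hy0
      simp only [Bool.false_eq_true, if_false] at hxy
      apply G1 h hx0
      rw [hxy, add_sub_cancel_right]
      exact hy1
    · simp only [hx0, hy0, if_true] at hxy
      exfalso
      have hx1 := (key x hx).resolve_left hx0
      simp only [Bool.false_eq_true, if_false] at hxy
      apply G1 h hy0
      rw [← hxy, add_sub_cancel_right]
      exact hx1
    · simp only [hx0, hy0, Bool.false_eq_true, if_false] at hxy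
      omega
  · -- surjective
    intro y hy
    rcases hy with hy | ⟨hy, hl⟩
    · rcases bwd_map h hd hu hy with ⟨hl0, h1 | h1⟩ | ⟨hl0, -, h1⟩
      · exact ⟨y, Or.inl h1, by simp [hl0]⟩
      · exact ⟨y, Or.inr ⟨h1, by rw [← h1]; exact hl0⟩, by simp [hl0]⟩
      · exact ⟨y - 1, Or.inl h1, by simp [hl0]⟩
    · obtain ⟨hbb, hl0, h1, -⟩ := end_event h hd hu hl
      refine ⟨b - 1, Or.inl h1, ?_⟩
      simp only [hl0, Bool.false_eq_true, if_false]
      omega

end cons

end Pool.Agent.W290.BM
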